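import Pool.Agent.Helper72K9.AB.St

/-!
# [CASE] and [RAMI]
-/

set_option autoImplicit false
set_option linter.unusedSectionVars false

open NumberField Module Polynomial IntermediateField

namespace Pool.Agent.Helper76K9.AB
open Pool.Agent.Helper72K9.AB

/-- the comparison of the two bounds for the norm -/
theorem bound (hN : S_NORM) (hS : S_SIZE) (hH : S_HP) (K N : Type) [Field K] [NumberField K] [Field N]
    [NumberField N] [Algebra K N] (m D D' p a A B : ℕ) (P : Ideal (𝓞 K)) (z β : 𝓞 N)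
    (g : Fin D' → (N ≃+* N)) (hβ : (β : N) = ∏ i, ((z : N) ^ A - (g i (z : N)) ^ B)) (hβ0 : β ≠ 0)
    (hmem : β ∈ P.map (algebraMap (𝓞 K) (𝓞 N))) (hm : finrank ℚ K ≤ m) (hD : D' ≤ D) (hD0 : 0 < D)
    (hp4 : 4 ^ (m * D) ≤ p) (hP : P.IsPrime) (hP0 : P ≠ ⊥) (ha : 0 < a)
    (hPa : Ideal.absNorm P = p ^ a) :
    (finrank ℚ N : ℝ) * Real.log 2 ≤ ((A : ℝ) + B) * HN N (z : N) := by
  have h1 := hN K N P β hP hP0 hβ0 hmem
  have hne : ∏ i, ((z : N) ^ A - (g i (z : N)) ^ B) ≠ 0 := by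
    rw [← hβ]
    exact fun h => hβ0 (RingOfIntegers.coe_injective (by simpa using h))
  have h2 := hS N (z : N) D' A B g hne
  rw [hβ] at h1
  have h3 := h1.trans h2
  have hH0 := (hH N (z : N) 0).2
  have hl2 : 0 < Real.log 2 := Real.log_pos (by norm_num)
  have h4 : 2 * ((m : ℝ) * D) * Real.log 2 ≤ Real.log p := by
    have h5 : Real.log ((4 : ℝ) ^ (m * D)) ≤ Real.log p := by
      refine Real.log_le_log (by positivity) ?_
      exact_mod_cast hp4
    rw [Real.log_pow, show (4 : ℝ) = 2 ^ 2 by norm_num, Real.log_pow] at h5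
    push_cast at h5
    linarith
  rw [hPa] at h3
  push_cast at h3
  rw [Real.log_pow] at h3
  have hlp : 0 ≤ Real.log p := Real.log_natCast_nonneg p
  have ha' : (1 : ℝ) ≤ a := by exact_mod_cast ha
  have h5 : Real.log p ≤ a * Real.log p := by nlinarith
  have hKN : (finrank ℚ N : ℝ) ≤ (finrank K N : ℝ) * m := by
    have h := Module.finrank_mul_finrank ℚ K N
    have h6 : finrank ℚ N ≤ finrank K N * m := by
      rw [← h, mul_comm]
      exact Nat.mul_le_mul_left _ hm
    exact_mod_cast h6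
  have hD' : (D' : ℝ) ≤ D := by exact_mod_cast hD
  have hD1 : (0 : ℝ) < D := by exact_mod_cast hD0
  have hN0 : (0 : ℝ) ≤ finrank ℚ N := by positivity
  have hK0 : (0 : ℝ) ≤ finrank K N := by positivity
  have hAB : (0 : ℝ) ≤ (A : ℝ) + B := by positivity
  -- 2 D [N:Q] log 2 ≤ [N:K] a log p
  have h7 : 2 * (D : ℝ) * ((finrank ℚ N : ℝ) * Real.log 2) ≤ (finrank K N : ℝ) * (a * Real.log p) := by
    calc 2 * (D : ℝ) * ((finrank ℚ N : ℝ) * Real.log 2)
        ≤ 2 * (D : ℝ) * (((finrank K N : ℝ) * m) * Real.log 2) := by gcongr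
      _ = (finrank K N : ℝ) * (2 * ((m : ℝ) * D) * Real.log 2) := by ring
      _ ≤ (finrank K N : ℝ) * (a * Real.log p) := by
          refine mul_le_mul_of_nonneg_left (h4.trans h5) hK0
  have h8 : (finrank ℚ N : ℝ) * D' * Real.log 2 + (D' : ℝ) * ((A : ℝ) + B) * HN N (z : N) ≤
      (D : ℝ) * ((finrank ℚ N : ℝ) * Real.log 2 + ((A : ℝ) + B) * HN N (z : N)) := by
    have h9 : 0 ≤ (finrank ℚ N : ℝ) * Real.log 2 + ((A : ℝ) + B) * HN N (z : N) := by positivity
    calc _ = (D' : ℝ) * ((finrank ℚ N : ℝ) * Real.log 2 + ((A : ℝ) + B) * HN N (z : N)) := by ring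
      _ ≤ _ := mul_le_mul_of_nonneg_right hD' h9
  have h10 : (D : ℝ) * (2 * ((finrank ℚ N : ℝ) * Real.log 2)) ≤
      (D : ℝ) * ((finrank ℚ N : ℝ) * Real.log 2 + ((A : ℝ) + B) * HN N (z : N)) := by linarith
  have h11 := le_of_mul_le_mul_left h10 hD1
  linarith

section

variable (K L N : Type) [Field K] [NumberField K] [Field L] [NumberField L]
  [Field N] [NumberField N] [Algebra K L] [Algebra L N] [Algebra K N] [IsScalarTower K L N]

/-- the action on the integers as a ring homomorphism -/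
noncomputable def act (σ : Gal(L/K)) : 𝓞 L →+* 𝓞 L := MulSemiringAction.toRingHom Gal(L/K) (𝓞 L) σ

theorem act_apply (σ : Gal(L/K)) (x : 𝓞 L) : act K L σ x = σ • x := rfl

theorem act_map (σ : Gal(L/K)) (f : (𝓞 L)[X]) :
    (f.map (act K L σ)).map (algebraMap (𝓞 L) N) =
      ((f.map (algebraMap (𝓞 L) L)).map (σ : L →+* L)).map (algebraMap L N) := by
  rw [Polynomial.map_map, Polynomial.map_map, Polynomial.map_map]
  congr 1

theorem mem_map (P : Ideal (𝓞 K)) : (P.map (algebraMap (𝓞 K) (𝓞 L))).map (algebraMap (𝓞 L) (𝓞 N)) =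
    P.map (algebraMap (𝓞 K) (𝓞 N)) := by
  rw [Ideal.map_map, ← IsScalarTower.algebraMap_eq]

end

theorem case_ok (hR : S_ROOTS) (hF : S_FINT) (hC : S_CA) (hN : S_NORM) (hS : S_SIZE) (hH : S_HP) : S_CASE := by
  intro K L N _ _ _ _ _ _ _ _ _ _ _ _ m D p a P φ z hm hD hp hp4 hP hP0 hpP ha hPa hφ hz hz1
  obtain ⟨s, hs, hroots⟩ := hR K L N (z : N) φ
  obtain ⟨f, hf1, hf2, hf3⟩ := hF L N z
  set q := p ^ a with hq
  have hpL : (p : 𝓞 L) ∈ P.map (algebraMap (𝓞 K) (𝓞 L)) := by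
    have := Ideal.mem_map_of_mem (algebraMap (𝓞 K) (𝓞 L)) hpP
    rwa [map_natCast] at this
  have hmem := hC L N p a (act K L φ) (P.map (algebraMap (𝓞 K) (𝓞 L))) f z hp hpL
    (fun x => by rw [act_apply]; exact hφ x) hf3
  rw [mem_map] at hmem
  set β := aeval (z ^ q) (f.map (act K L φ)) with hβ
  have hβN : (β : N) = ∏ i, ((z : N) ^ q - ((s i).toRingEquiv (z : N)) ^ 1) := by
    have h1 : (β : N) = eval ((z : N) ^ q) ((f.map (act K L φ)).map (algebraMap (𝓞 L) N)) := by
      rw [hβ, eval_map_algebraMap, ← map_pow, ]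
      exact (aeval_algebraMap_apply N (z ^ q) (f.map (act K L φ))).symm
    rw [h1, act_map K L N, hf1, hroots, eval_prod]
    refine Finset.prod_congr rfl fun i _ => ?_
    rw [eval_sub, eval_X, eval_C, pow_one]
    rfl
  have hint : IsIntegral L (z : N) := Algebra.IsIntegral.isIntegral _
  have hdeg : 0 < (minpoly L (z : N)).natDegree := minpoly.natDegree_pos hint
  have hβ0 : β ≠ 0 := by
    intro h0
    have h1 : (β : N) = 0 := by rw [h0]; simp
    rw [hβN, Finset.prod_eq_zero_iff] at h1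
    obtain ⟨i, -, hi⟩ := h1
    rw [pow_one] at hi
    have hi' : s i (z : N) = (z : N) ^ q := (sub_eq_zero.mp hi).symm
    have hit : ∀ j : ℕ, ((s i) ^ j) (z : N) = (z : N) ^ q ^ j := by
      intro j
      induction j with
      | zero => simp
      | succ j ih =>
        rw [pow_succ', AlgEquiv.mul_apply, ih, map_pow, hi', ← pow_mul, pow_succ']
    have hfin := hit (orderOf (s i))
    rw [pow_orderOf_eq_one, AlgEquiv.one_apply] at hfin
    have hq1 : 1 < q ^ orderOf (s i) :=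
      Nat.one_lt_pow (orderOf_pos (s i)).ne' (Nat.one_lt_pow ha.ne' hp.one_lt)
    refine hz1 (q ^ orderOf (s i) - 1) (by omega) ?_
    apply RingOfIntegers.coe_injective
    have hz0 : (z : N) ≠ 0 := fun h => hz (RingOfIntegers.coe_injective (by simpa using h))
    refine mul_left_cancel₀ hz0 ?_
    rw [map_pow, ← pow_succ', Nat.sub_add_cancel hq1.le]
    simpa using hfin.symm
  have := bound hN hS hH K N m D _ p a q 1 P z β (fun i => (s i).toRingEquiv) hβN hβ0 hmem hm hD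
    (by omega) hp4 hP hP0 ha hPa
  rw [hq] at this
  push_cast at this
  exact this

theorem rami (hR : S_ROOTS) (hF : S_FINT) (hC : S_CB) (hN : S_NORM) (hS : S_SIZE) (hH : S_HP) : S_RAMI := by
  intro K L N _ _ _ _ _ _ _ _ _ _ _ _ m D p a k e P J σ z hm hD hp hp4 hP hP0 hpP ha hPa hσ hJ he hne
  obtain ⟨s, hs, hroots⟩ := hR K L N (z : N) σ
  obtain ⟨f, hf1, hf2, hf3⟩ := hF L N z
  have hpL : (p : 𝓞 L) ∈ P.map (algebraMap (𝓞 K) (𝓞 L)) := by
    have := Ideal.mem_map_of_mem (algebraMap (𝓞 K) (𝓞 L)) hpP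
    rwa [map_natCast] at this
  have hpoly : (f.map (act K L σ)).map (algebraMap (𝓞 L) (𝓞 N)) = ∏ i, (X - C ((s i) • z)) := by
    apply Polynomial.map_injective (algebraMap (𝓞 N) N) RingOfIntegers.coe_injective
    rw [Polynomial.map_map, ← IsScalarTower.algebraMap_eq, act_map K L N, hf1, hroots, Polynomial.map_prod]
    refine Finset.prod_congr rfl fun i _ => ?_
    rw [Polynomial.map_sub, Polynomial.map_X, Polynomial.map_C]
    rfl
  have hmem := hC L N p k e _ (act K L σ) (P.map (algebraMap (𝓞 K) (𝓞 L))) J f z (fun i => (s i) • z) hp hpL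
    (fun x => by rw [act_apply]; exact hσ x) hJ he hf3 hpoly
  rw [mem_map] at hmem
  set β : 𝓞 N := ∏ i, (z ^ p ^ k - (s i • z) ^ p ^ k) with hβ
  have hβN : (β : N) = ∏ i, ((z : N) ^ (p ^ k) - ((s i).toRingEquiv (z : N)) ^ (p ^ k)) := by
    have e : (β : N) = algebraMap (𝓞 N) N (∏ i, (z ^ p ^ k - (s i • z) ^ p ^ k)) := rfl
    rw [e, map_prod]
    refine Finset.prod_congr rfl fun i _ => ?_
    rw [map_sub, map_pow, map_pow]
    rfl
  have hint : IsIntegral L (z : N) := Algebra.IsIntegral.isIntegral _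
  have hdeg : 0 < (minpoly L (z : N)).natDegree := minpoly.natDegree_pos hint
  have hβ0 : β ≠ 0 := by
    intro h0
    have h1 : (β : N) = 0 := by rw [h0]; simp
    rw [hβN, Finset.prod_eq_zero_iff] at h1
    obtain ⟨i, -, hi⟩ := h1
    refine hne (s i) (hs i) ?_
    rw [map_pow]
    exact (sub_eq_zero.mp hi).symm
  have := bound hN hS hH K N m D _ p a (p ^ k) (p ^ k) P z β (fun i => (s i).toRingEquiv) hβN hβ0 hmem hm hD
    (by omega) hp4 hP hP0 ha hPa
  push_cast at this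
  linarith

end Pool.Agent.Helper76K9.AB
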