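import Pool.Agent.Helper72K9.AB.St

/-!
# [NORM] and [PRM]
-/

set_option autoImplicit false

open NumberField Module Polynomial IntermediateField

namespace Pool.Agent.Helper76K9.AB
open Pool.Agent.Helper72K9.AB

theorem absNorm_nat (K : Type) [Field K] [NumberField K] (β : 𝓞 K) :
    (Ideal.absNorm (Ideal.span {β}) : ℝ) = |((Algebra.norm ℚ (β : K) : ℚ) : ℝ)| := by
  rw [Ideal.absNorm_span_singleton, ← Algebra.coe_norm_int, Nat.cast_natAbs]
  push_cast
  rfl

theorem norm : S_NORM := by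
  intro K N _ _ _ _ _ P β hP hP0 hβ hmem
  have h1 : Ideal.absNorm (P.map (algebraMap (𝓞 K) (𝓞 N))) ∣ Ideal.absNorm (Ideal.span {β}) :=
    Ideal.absNorm_dvd_absNorm_of_le ((Ideal.span_singleton_le_iff_mem _).mpr hmem)
  rw [Ideal.absNorm_algebraMap, ← IsFractionRing.finrank_eq (𝓞 K) K (𝓞 N) N] at h1
  have h2 : Ideal.absNorm (Ideal.span {β}) ≠ 0 := by
    rw [Ne, Ideal.absNorm_eq_zero_iff, Ideal.span_singleton_eq_bot]
    exact hβ
  have h3 := Nat.le_of_dvd (Nat.pos_of_ne_zero h2) h1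
  rw [← absNorm_nat, ← Real.log_pow]
  have h4 : 0 < Ideal.absNorm P := Nat.pos_of_ne_zero fun h => hP0 (Ideal.absNorm_eq_zero_iff.mp h)
  refine Real.log_le_log ?_ ?_
  · positivity
  · exact_mod_cast h3

theorem prm : S_PRM := by
  intro K _ _ m p hm hp
  have hn : Ideal.absNorm (Ideal.span {(p : 𝓞 K)}) = p ^ finrank ℚ K := by
    rw [Ideal.absNorm_span_singleton]
    have h := Algebra.norm_algebraMap (R := ℤ) (S := 𝓞 K) (p : ℤ)
    rw [RingOfIntegers.rank K] at h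
    rw [map_natCast] at h
    rw [h, Int.natAbs_pow, Int.natAbs_natCast]
  have hne : Ideal.span {(p : 𝓞 K)} ≠ ⊤ := by
    intro h
    rw [h, Ideal.absNorm_top] at hn
    have h1 : 1 < p ^ finrank ℚ K := Nat.one_lt_pow (Module.finrank_pos (R := ℚ) (M := K)).ne' hp.one_lt
    omega
  obtain ⟨P, hP, hle⟩ := Ideal.exists_le_maximal _ hne
  have hmem : (p : 𝓞 K) ∈ P := hle (Ideal.mem_span_singleton_self _)
  have hp0 : (p : 𝓞 K) ≠ 0 := by exact_mod_cast hp.ne_zero
  have hbot : P ≠ ⊥ := by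
    rintro rfl
    exact hp0 (by simpa using hmem)
  refine ⟨P, hP.isPrime, hbot, hmem, ?_⟩
  have h1 := Ideal.absNorm_dvd_absNorm_of_le hle
  rw [hn] at h1
  obtain ⟨a, ha, hPa⟩ := (Nat.dvd_prime_pow hp).mp h1
  refine ⟨a, ?_, by omega, hPa⟩
  rcases Nat.eq_zero_or_pos a with rfl | h
  · exfalso
    rw [pow_zero, Ideal.absNorm_eq_one_iff] at hPa
    exact hP.ne_top hPa
  · exact h

end Pool.Agent.Helper76K9.AB
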